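import Pool.Agent.helper81.WS.Spec
import Pool.Agent.helper85.PG.Basic

/-! Row ws:DEN. -/

set_option autoImplicit false

open Finset Module Pointwise

namespace Pool.Agent.WS

open Pool.Agent.helper85.PG (IsSys rr)

theorem DEN_big (K s : ℝ) (hs : 0 < s) : ∃ p₀ : ℕ, ∀ p : ℕ, p₀ ≤ p → K ≤ (p : ℝ) ^ s := by
  have h := (tendsto_rpow_atTop hs).comp tendsto_natCast_atTop_atTop
  have h2 := h.eventually_ge_atTop K
  obtain ⟨p₀, hp₀⟩ := Filter.eventually_atTop.mp h2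
  exact ⟨p₀, fun p hp => hp₀ p hp⟩

/-- the moment bound in the range `V^k ≥ √p` -/
theorem DEN_mom (k : ℕ) (V P s M : ℝ) (hV : 0 ≤ V) (hs : 0 ≤ s) (hP : P = s * s)
    (hVk : s ≤ V ^ k)
    (hM : M ≤ (k : ℝ) ^ (2 * k) * V ^ k * P + V ^ (2 * k) * (4 * k * s)) :
    M ≤ ((k : ℝ) ^ (2 * k) + 4 * k) * (s * V ^ (2 * k)) := by
  have h1 : V ^ k * P ≤ s * V ^ (2 * k) := by
    rw [hP, two_mul, pow_add]
    have : V ^ k * (s * s) ≤ V ^ k * (V ^ k * s) := by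
      apply mul_le_mul_of_nonneg_left _ (by positivity)
      exact mul_le_mul_of_nonneg_right hVk hs
    calc V ^ k * (s * s) ≤ V ^ k * (V ^ k * s) := this
      _ = s * (V ^ k * V ^ k) := by ring
  have h2 : (k : ℝ) ^ (2 * k) * V ^ k * P ≤ (k : ℝ) ^ (2 * k) * (s * V ^ (2 * k)) := by
    rw [mul_assoc]
    exact mul_le_mul_of_nonneg_left h1 (by positivity)
  calc M ≤ (k : ℝ) ^ (2 * k) * V ^ k * P + V ^ (2 * k) * (4 * k * s) := hM
    _ ≤ (k : ℝ) ^ (2 * k) * (s * V ^ (2 * k)) + V ^ (2 * k) * (4 * k * s) := by linarith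
    _ = ((k : ℝ) ^ (2 * k) + 4 * k) * (s * V ^ (2 * k)) := by ring

/-- the second moment of `nu` times `√p` -/
theorem DEN_two (P ε τ X N n D κ s Q : ℝ) (d : ℕ) (hP : 1 ≤ P) (hε : 0 < ε) (_hτ : 0 < τ)
    (hτε : 64 * ((d : ℝ) + 1) * τ ≤ ε)
    (hN : 0 ≤ N) (hn : 0 ≤ n) (hD : 0 ≤ D) (hX : X = N * n)
    (h1 : P ^ (1 / 2 + ε) * D ≤ N * n ^ 2) (h2 : n ≤ P ^ (1 / 2 + ε / 8))
    (h3 : N ^ 2 * n ≤ P ^ (1 + ε / 8)) (hκ : κ = (29 * P ^ (3 * τ)) ^ d)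
    (hs : s = P ^ (1 / 2 : ℝ))
    (hQ : Q ≤ κ ^ 2 * (P ^ τ * (N * D + (N * D) ^ 2 / P))) :
    Q * s ≤ X ^ 2 * (2 * (29 : ℝ) ^ (2 * d) * P ^ (-(7 * ε / 8))) := by
  have hP0 : 0 < P := by linarith
  have hs0 : 0 < s := by rw [hs]; positivity
  have hX2 : 0 ≤ X ^ 2 := by positivity
  -- `N D ≤ P^(-1/2-ε) X²`
  have hND : N * D ≤ P ^ (-(1 / 2 + ε)) * X ^ 2 := by
    have h4 : D ≤ P ^ (-(1 / 2 + ε)) * (N * n ^ 2) := by
      calc D = P ^ (-(1 / 2 + ε)) * (P ^ (1 / 2 + ε) * D) := by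
            rw [← mul_assoc, ← Real.rpow_add hP0, neg_add_cancel, Real.rpow_zero, one_mul]
        _ ≤ P ^ (-(1 / 2 + ε)) * (N * n ^ 2) := mul_le_mul_of_nonneg_left h1 (by positivity)
    calc N * D ≤ N * (P ^ (-(1 / 2 + ε)) * (N * n ^ 2)) := mul_le_mul_of_nonneg_left h4 hN
      _ = P ^ (-(1 / 2 + ε)) * X ^ 2 := by rw [hX]; ring
  have hND0 : 0 ≤ N * D := mul_nonneg hN hD
  -- `X² ≤ P^(3/2+ε/4)`
  have hXX : X ^ 2 ≤ P ^ (3 / 2 + ε / 4) := by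
    calc X ^ 2 = (N ^ 2 * n) * n := by rw [hX]; ring
      _ ≤ P ^ (1 + ε / 8) * P ^ (1 / 2 + ε / 8) :=
          mul_le_mul h3 h2 hn (by positivity)
      _ = P ^ (3 / 2 + ε / 4) := by
          rw [← Real.rpow_add hP0]
          congr 1
          ring
  have hND2 : (N * D) ^ 2 / P ≤ P ^ (-(1 / 2 + ε)) * X ^ 2 := by
    have h5 : (N * D) ^ 2 ≤ (P ^ (-(1 / 2 + ε)) * X ^ 2) ^ 2 := pow_le_pow_left₀ hND0 hND 2
    rw [div_le_iff₀ hP0]
    calc (N * D) ^ 2 ≤ (P ^ (-(1 / 2 + ε)) * X ^ 2) ^ 2 := h5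
      _ = P ^ (-(1 / 2 + ε)) * X ^ 2 * (P ^ (-(1 / 2 + ε)) * X ^ 2) := by ring
      _ ≤ P ^ (-(1 / 2 + ε)) * X ^ 2 * (P ^ (-(1 / 2 + ε)) * P ^ (3 / 2 + ε / 4)) := by
          apply mul_le_mul_of_nonneg_left _ (by positivity)
          exact mul_le_mul_of_nonneg_left hXX (by positivity)
      _ ≤ P ^ (-(1 / 2 + ε)) * X ^ 2 * P := by
          apply mul_le_mul_of_nonneg_left _ (by positivity)
          rw [← Real.rpow_add hP0]
          calc P ^ (-(1 / 2 + ε) + (3 / 2 + ε / 4)) ≤ P ^ (1 : ℝ) :=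
                Real.rpow_le_rpow_of_exponent_le hP (by linarith)
            _ = P := Real.rpow_one P
  have hd0 : (0 : ℝ) ≤ d := Nat.cast_nonneg d
  have hκ2 : κ ^ 2 = (29 : ℝ) ^ (2 * d) * P ^ (6 * d * τ) := by
    rw [hκ, ← pow_mul, mul_comm d 2, mul_pow, ← Real.rpow_natCast (P ^ (3 * τ)), ← Real.rpow_mul hP0.le]
    congr 2
    push_cast
    ring
  have hQ2 : Q ≤ ((29 : ℝ) ^ (2 * d) * P ^ (6 * d * τ)) * (P ^ τ * (2 * (P ^ (-(1 / 2 + ε)) * X ^ 2))) := by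
    rw [← hκ2]
    refine hQ.trans ?_
    apply mul_le_mul_of_nonneg_left _ (by positivity)
    apply mul_le_mul_of_nonneg_left _ (by positivity)
    linarith
  calc Q * s ≤ ((29 : ℝ) ^ (2 * d) * P ^ (6 * d * τ)) * (P ^ τ * (2 * (P ^ (-(1 / 2 + ε)) * X ^ 2))) * s :=
        mul_le_mul_of_nonneg_right hQ2 hs0.le
    _ = X ^ 2 * (2 * (29 : ℝ) ^ (2 * d) * (P ^ (6 * d * τ) * P ^ τ * P ^ (-(1 / 2 + ε)) * P ^ (1 / 2 : ℝ))) := by
        rw [hs]; ring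
    _ ≤ X ^ 2 * (2 * (29 : ℝ) ^ (2 * d) * P ^ (-(7 * ε / 8))) := by
        apply mul_le_mul_of_nonneg_left _ hX2
        apply mul_le_mul_of_nonneg_left _ (by positivity)
        rw [← Real.rpow_add hP0, ← Real.rpow_add hP0, ← Real.rpow_add hP0]
        apply Real.rpow_le_rpow_of_exponent_le hP
        nlinarith

/-- from Hoelder to the bound of `∑ nu Ph` -/
theorem DEN_hol (k : ℕ) (hk : 1 ≤ k) (P ε C c X V s U Q W Mm K δ : ℝ) (hP : 1 ≤ P)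
    (hX : 0 ≤ X) (hV : 0 ≤ V) (hs : 0 ≤ s) (hU : 0 ≤ U) (hQ0 : 0 ≤ Q) (hK0 : 0 ≤ K)
    (hc : 1 ≤ c) (hW0 : 0 ≤ W) (hUX : U ≤ c * X)
    (hM : Mm ≤ K * (s * V ^ (2 * k)))
    (hQ : Q * s ≤ X ^ 2 * (C * P ^ (-(7 * ε / 8))))
    (hbig : K * C ≤ P ^ (3 * ε / 8))
    (hd : δ * (2 * k) = ε / 2)
    (hW : W ^ (2 * k) ≤ U ^ (2 * k - 2) * Q * Mm) : W ≤ c * X * V * P ^ (-δ) := by
  have hP0 : 0 < P := by linarith
  have hcX : 0 ≤ c * X := by positivity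
  have h1 : U ^ (2 * k - 2) ≤ (c * X) ^ (2 * k - 2) := pow_le_pow_left₀ hU hUX _
  have h2 : (c * X) ^ (2 * k) = (c * X) ^ (2 * k - 2) * (c * X) ^ 2 := by
    rw [← pow_add]
    congr 1
    omega
  have hXc : X ^ 2 ≤ (c * X) ^ 2 := by
    apply pow_le_pow_left₀ hX
    nlinarith
  have h3 : W ^ (2 * k) ≤ (c * X * V * P ^ (-δ)) ^ (2 * k) := by
    have h4 : (P ^ (-δ)) ^ (2 * k) = P ^ (-(ε / 2)) := by
      rw [← Real.rpow_natCast, ← Real.rpow_mul hP0.le]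
      congr 1
      push_cast
      linarith
    have h5 : P ^ (3 * ε / 8) * P ^ (-(7 * ε / 8)) = P ^ (-(ε / 2)) := by
      rw [← Real.rpow_add hP0]
      congr 1
      ring
    calc W ^ (2 * k) ≤ U ^ (2 * k - 2) * Q * Mm := hW
      _ ≤ (c * X) ^ (2 * k - 2) * Q * (K * (s * V ^ (2 * k))) := by
          have h6 : U ^ (2 * k - 2) * Q ≤ (c * X) ^ (2 * k - 2) * Q :=
            mul_le_mul_of_nonneg_right h1 hQ0
          calc U ^ (2 * k - 2) * Q * Mm ≤ U ^ (2 * k - 2) * Q * (K * (s * V ^ (2 * k))) :=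
                mul_le_mul_of_nonneg_left hM (by positivity)
            _ ≤ (c * X) ^ (2 * k - 2) * Q * (K * (s * V ^ (2 * k))) :=
                mul_le_mul_of_nonneg_right h6 (by positivity)
      _ = (c * X) ^ (2 * k - 2) * K * V ^ (2 * k) * (Q * s) := by ring
      _ ≤ (c * X) ^ (2 * k - 2) * K * V ^ (2 * k) * (X ^ 2 * (C * P ^ (-(7 * ε / 8)))) :=
          mul_le_mul_of_nonneg_left hQ (by positivity)
      _ = (c * X) ^ (2 * k - 2) * X ^ 2 * V ^ (2 * k) * ((K * C) * P ^ (-(7 * ε / 8))) := by ring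
      _ ≤ (c * X) ^ (2 * k - 2) * X ^ 2 * V ^ (2 * k) * (P ^ (3 * ε / 8) * P ^ (-(7 * ε / 8))) := by
          apply mul_le_mul_of_nonneg_left _ (by positivity)
          exact mul_le_mul_of_nonneg_right hbig (by positivity)
      _ ≤ (c * X) ^ (2 * k - 2) * (c * X) ^ 2 * V ^ (2 * k) * (P ^ (3 * ε / 8) * P ^ (-(7 * ε / 8))) := by
          apply mul_le_mul_of_nonneg_right _ (by positivity)
          apply mul_le_mul_of_nonneg_right _ (by positivity)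
          exact mul_le_mul_of_nonneg_left hXc (by positivity)
      _ = (c * X * V * P ^ (-δ)) ^ (2 * k) := by
          rw [← h2, h5, mul_pow (c * X * V), mul_pow (c * X) V, h4]
  exact (pow_le_pow_iff_left₀ hW0 (by positivity) (by omega)).mp h3

/-- the end of the proof -/
theorem DEN_end (P τ δ δ₂ c X N n V G S W Wt m4 : ℝ) (hP : 1 ≤ P) (_hτ : 0 < τ)
    (hδτ : δ₂ ≤ τ) (hδδ : δ₂ ≤ δ) (hN : 0 ≤ N) (hn : 0 ≤ n) (hX : X = N * n) (hV0 : 0 < V) (hc : 1 ≤ c)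
    (hWt0 : 0 ≤ Wt) (hWt : Wt ≤ c * N) (hm4 : m4 ≤ c * N) (hS0 : 0 ≤ S) (_hG0 : 0 ≤ G)
    (hbig : 18 * c ^ 2 ≤ P ^ (δ₂ / 2)) (hW : W ≤ c * X * V * P ^ (-δ))
    (hG : V * G ≤ W + V * (16 * P ^ (-(2 * τ)) * m4) * n)
    (hS : S ^ 2 ≤ n * Wt * (Wt * n / P ^ τ + G)) : S ≤ P ^ (-(δ₂ / 4)) * (N * n) := by
  have hP0 : 0 < P := by linarith
  have hX0 : 0 ≤ X := by rw [hX]; positivity
  have hcN : 0 ≤ c * N := by positivity
  have h6 : P ^ (-(2 * τ)) ≤ P ^ (-δ₂) := Real.rpow_le_rpow_of_exponent_le hP (by linarith)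
  have h7 : P ^ (-τ) ≤ P ^ (-δ₂) := Real.rpow_le_rpow_of_exponent_le hP (by linarith)
  have h7' : P ^ (-δ) ≤ P ^ (-δ₂) := Real.rpow_le_rpow_of_exponent_le hP (by linarith)
  have h4 : G ≤ c * X * P ^ (-δ) + 16 * P ^ (-(2 * τ)) * m4 * n := by
    have h5 : V * G ≤ V * (c * X * P ^ (-δ) + 16 * P ^ (-(2 * τ)) * m4 * n) := by
      calc V * G ≤ W + V * (16 * P ^ (-(2 * τ)) * m4) * n := hG
        _ ≤ c * X * V * P ^ (-δ) + V * (16 * P ^ (-(2 * τ)) * m4) * n := by linarith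
        _ = V * (c * X * P ^ (-δ) + 16 * P ^ (-(2 * τ)) * m4 * n) := by ring
    exact le_of_mul_le_mul_left h5 hV0
  have h8 : G ≤ 17 * (c * X * P ^ (-δ₂)) := by
    have h9 : c * X * P ^ (-δ) ≤ c * X * P ^ (-δ₂) := mul_le_mul_of_nonneg_left h7' (by positivity)
    have h10 : 16 * P ^ (-(2 * τ)) * m4 * n ≤ 16 * (c * X * P ^ (-δ₂)) := by
      calc 16 * P ^ (-(2 * τ)) * m4 * n ≤ 16 * P ^ (-(2 * τ)) * (c * N) * n := by
            apply mul_le_mul_of_nonneg_right _ hn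
            exact mul_le_mul_of_nonneg_left hm4 (by positivity)
        _ ≤ 16 * P ^ (-δ₂) * (c * N) * n := by
            apply mul_le_mul_of_nonneg_right _ hn
            apply mul_le_mul_of_nonneg_right _ hcN
            linarith
        _ = 16 * (c * X * P ^ (-δ₂)) := by rw [hX]; ring
    linarith
  have h9 : Wt * n / P ^ τ ≤ c * X * P ^ (-δ₂) := by
    rw [div_eq_mul_inv, ← Real.rpow_neg hP0.le]
    calc Wt * n * P ^ (-τ) ≤ c * N * n * P ^ (-τ) := by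
          apply mul_le_mul_of_nonneg_right _ (by positivity)
          exact mul_le_mul_of_nonneg_right hWt hn
      _ ≤ c * N * n * P ^ (-δ₂) := mul_le_mul_of_nonneg_left h7 (by positivity)
      _ = c * X * P ^ (-δ₂) := by rw [hX]; ring
  have h10 : S ^ 2 ≤ X ^ 2 * (18 * c ^ 2 * P ^ (-δ₂)) := by
    calc S ^ 2 ≤ n * Wt * (Wt * n / P ^ τ + G) := hS
      _ ≤ n * Wt * (18 * (c * X * P ^ (-δ₂))) := by
          apply mul_le_mul_of_nonneg_left _ (by positivity)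
          linarith
      _ ≤ n * (c * N) * (18 * (c * X * P ^ (-δ₂))) := by
          apply mul_le_mul_of_nonneg_right _ (by positivity)
          exact mul_le_mul_of_nonneg_left hWt hn
      _ = X ^ 2 * (18 * c ^ 2 * P ^ (-δ₂)) := by rw [hX]; ring
  have h11 : 18 * c ^ 2 * P ^ (-δ₂) ≤ P ^ (-(δ₂ / 2)) := by
    have h12 : P ^ (-(δ₂ / 2)) = P ^ (δ₂ / 2) * P ^ (-δ₂) := by
      rw [← Real.rpow_add hP0]
      congr 1
      ring
    rw [h12]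
    exact mul_le_mul_of_nonneg_right hbig (by positivity)
  have h13 : S ^ 2 ≤ (P ^ (-(δ₂ / 4)) * (N * n)) ^ 2 := by
    have h14 : (P ^ (-(δ₂ / 4))) ^ 2 = P ^ (-(δ₂ / 2)) := by
      rw [← Real.rpow_natCast, ← Real.rpow_mul hP0.le]
      congr 1
      push_cast
      ring
    calc S ^ 2 ≤ X ^ 2 * (18 * c ^ 2 * P ^ (-δ₂)) := h10
      _ ≤ X ^ 2 * P ^ (-(δ₂ / 2)) := mul_le_mul_of_nonneg_left h11 (by positivity)
      _ = (P ^ (-(δ₂ / 4)) * (N * n)) ^ 2 := by rw [← h14, hX]; ring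
  exact (pow_le_pow_iff_left₀ hS0 (by positivity) (by norm_num)).mp h13

theorem DEN (hREG : Pool.Agent.helper85.PG.REG_stmt) (hPKC : Pool.Agent.helper85.PG.PKC_stmt)
    (hMOM : Pool.Agent.PY2.MOM_stmt) (hHOL : Pool.Agent.PY2.HOL_stmt) (hCSW : CSW_stmt) (hNUW : NUW_stmt)
    (hMSS : MSS_stmt) (hCOL : COL_stmt) (hENR : ENR_stmt) : DEN_stmt := by
  intro d ε hε
  have hd0 : (0 : ℝ) ≤ d := Nat.cast_nonneg d
  refine ⟨min ε 1 / (64 * ((d : ℝ) + 1)), by positivity, ?_⟩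
  intro τ hτ hτ₀
  have hτ1 : 64 * ((d : ℝ) + 1) * τ ≤ min ε 1 := by
    rw [le_div_iff₀ (by positivity)] at hτ₀
    linarith
  have hτε : 64 * ((d : ℝ) + 1) * τ ≤ ε := hτ1.trans (min_le_left _ _)
  have hτone : 64 * ((d : ℝ) + 1) * τ ≤ 1 := hτ1.trans (min_le_right _ _)
  have hτ64 : 64 * τ ≤ 1 := by nlinarith [mul_nonneg hd0 hτ.le]
  obtain ⟨k, hk⟩ : ∃ k : ℕ, 1 / τ + 1 ≤ (k : ℝ) := exists_nat_ge _
  have hτi : 0 < 1 / τ := by positivity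
  have hk1R : (1 : ℝ) ≤ (k : ℝ) := by linarith
  have hk1 : 1 ≤ k := by exact_mod_cast hk1R
  have hkτ : 1 ≤ τ * k := by
    have h8 : τ * (1 / τ) = 1 := by field_simp
    nlinarith
  obtain ⟨δ, hδ⟩ : ∃ δ : ℝ, δ = ε / (4 * k) := ⟨_, rfl⟩
  have hδ0 : 0 < δ := by rw [hδ]; positivity
  have hδk : δ * (2 * (k : ℝ)) = ε / 2 := by
    rw [hδ]
    have : (k : ℝ) ≠ 0 := by linarith
    field_simp
    ring
  obtain ⟨δ₂, hδ₂⟩ : ∃ δ₂ : ℝ, δ₂ = min τ δ := ⟨_, rfl⟩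
  have hδ₂0 : 0 < δ₂ := by rw [hδ₂]; exact lt_min hτ hδ0
  have hδ₂τ : δ₂ ≤ τ := by rw [hδ₂]; exact min_le_left _ _
  have hδ₂δ : δ₂ ≤ δ := by rw [hδ₂]; exact min_le_right _ _
  obtain ⟨K, hK⟩ : ∃ K : ℝ, K = (k : ℝ) ^ (2 * k) + 4 * k := ⟨_, rfl⟩
  have hK0 : 0 ≤ K := by rw [hK]; positivity
  obtain ⟨c, hcdef⟩ : ∃ c : ℝ, c = (9 : ℝ) ^ d := ⟨_, rfl⟩
  have hc : 1 ≤ c := by rw [hcdef]; exact one_le_pow₀ (by norm_num)
  obtain ⟨pE, hpE⟩ := hENR d τ hτ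
  obtain ⟨p₁, hp₁⟩ := DEN_big 2 (τ / 2) (by positivity)
  obtain ⟨p₂, hp₂⟩ := DEN_big (K * (2 * (29 : ℝ) ^ (2 * d))) (3 * ε / 8) (by positivity)
  obtain ⟨p₃, hp₃⟩ := DEN_big (18 * c ^ 2) (δ₂ / 2) (by positivity)
  obtain ⟨p₄, hp₄⟩ := DEN_big 8 (2 * τ) (by positivity)
  refine ⟨δ₂ / 4, pE + p₁ + p₂ + p₃ + p₄ + 100, by positivity, ?_⟩
  intro p _ hp P Q hP hQ s B f hBs hD hn hNn hcell hκim hcf χ hχ β hβ
  have hb1 := hp₁ p (by omega)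
  have hb2 := hp₂ p (by omega)
  have hb3 := hp₃ p (by omega)
  have hb4 := hp₄ p (by omega)
  have hen := (hpE p (by omega) P Q hP hQ).1
  have hp100 : 100 ≤ p := by omega
  obtain ⟨X₀, hX₀⟩ : ∃ X₀ : ℝ, X₀ = (p : ℝ) := ⟨_, rfl⟩
  rw [← hX₀] at hb1 hb2 hb3 hb4 hen hD hn hNn hcell hκim hcf ⊢
  have hP100 : (100 : ℝ) ≤ X₀ := by rw [hX₀]; exact_mod_cast hp100
  have hP1 : 1 ≤ X₀ := by linarith
  have hP0 : 0 < X₀ := by linarith
  -- the size of V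
  obtain ⟨V, hVdef⟩ : ∃ V : ℕ, V = ⌊X₀ ^ τ⌋₊ := ⟨_, rfl⟩
  have hVle : (V : ℝ) ≤ X₀ ^ τ := by
    rw [hVdef]
    exact Nat.floor_le (by positivity)
  have hVlt : X₀ ^ τ < V + 1 := by
    rw [hVdef]
    exact Nat.lt_floor_add_one _
  have hyy : X₀ ^ τ = X₀ ^ (τ / 2) * X₀ ^ (τ / 2) := by
    rw [← Real.rpow_add hP0]
    congr 1
    ring
  have hVy : X₀ ^ (τ / 2) ≤ V := by nlinarith
  have hV0 : (0 : ℝ) < V := by linarith
  have hVk : X₀ ^ (1 / 2 : ℝ) ≤ (V : ℝ) ^ k := by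
    calc X₀ ^ (1 / 2 : ℝ) ≤ X₀ ^ (τ / 2 * k) :=
          Real.rpow_le_rpow_of_exponent_le hP1 (by linarith)
      _ = (X₀ ^ (τ / 2)) ^ k := by rw [Real.rpow_mul hP0.le, Real.rpow_natCast]
      _ ≤ (V : ℝ) ^ k := pow_le_pow_left₀ (by positivity) hVy k
  have hss : X₀ = X₀ ^ (1 / 2 : ℝ) * X₀ ^ (1 / 2 : ℝ) := by
    rw [← Real.rpow_add hP0]
    norm_num
  have hs10 : 10 ≤ X₀ ^ (1 / 2 : ℝ) := by
    by_contra hcon
    rw [not_le] at hcon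
    have h8 : 0 < X₀ ^ (1 / 2 : ℝ) := by positivity
    nlinarith
  have hVs : (V : ℝ) ≤ X₀ ^ (1 / 2 : ℝ) :=
    hVle.trans (Real.rpow_le_rpow_of_exponent_le hP1 (by linarith))
  have h2V : 2 * V + 1 < p := by
    have h8 : 2 * (V : ℝ) + 1 < X₀ := by nlinarith
    rw [hX₀] at h8
    exact_mod_cast h8
  -- the weight
  obtain ⟨η, hη⟩ : ∃ η : ℝ, η = X₀ ^ (-(2 * τ)) := ⟨_, rfl⟩
  have hη0 : 0 < η := by rw [hη]; positivity
  have hη8 : η ≤ 1 / 8 := by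
    rw [hη, Real.rpow_neg hP0.le, inv_eq_one_div]
    exact one_div_le_one_div_of_le (by norm_num) hb4
  have hP4 : IsSys p d fun R => P (4 * R) := hP.scale (by norm_num)
  obtain ⟨w, hw01, hw1, hwsupp, hwsh⟩ := hREG p d (fun R => P (4 * R)) hP4 η hη0 hη8
  have e1 : (4 : ℝ) * (1 / 4) = 1 := by norm_num
  have e2 : (4 : ℝ) * 1 = 4 := by norm_num
  simp only [e1] at hw1
  simp only [e2] at hwsupp hwsh
  have hw0 : ∀ x, 0 ≤ w x := fun x => (hw01 x).1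
  -- cardinalities
  obtain ⟨N, hN⟩ : ∃ N : ℝ, N = ((P 1).card : ℝ) := ⟨_, rfl⟩
  obtain ⟨D, hDdef⟩ : ∃ D : ℝ, D = ((Q 1).card : ℝ) := ⟨_, rfl⟩
  obtain ⟨n, hndef⟩ : ∃ n : ℝ, n = (B.card : ℝ) := ⟨_, rfl⟩
  rw [← hN, ← hDdef] at hen
  rw [← hN, ← hDdef, ← hndef] at hD
  rw [← hndef] at hn
  rw [← hN, ← hndef] at hNn ⊢
  have hN0 : 0 ≤ N := by rw [hN]; exact Nat.cast_nonneg _
  have hD0 : 0 ≤ D := by rw [hDdef]; exact Nat.cast_nonneg _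
  have hn0 : 0 ≤ n := by rw [hndef]; exact Nat.cast_nonneg _
  have hP4card : ((P 4).card : ℝ) ≤ c * N := by
    have h8 := ((hPKC.2.2 p d P hP) 4 1 (by norm_num) (by norm_num)).1
    rw [← hN] at h8
    have h9 : (1 + 2 * (4 : ℝ) / 1) = 9 := by norm_num
    rw [h9] at h8
    rw [hcdef]
    exact h8
  have hWt : ∑ x : ZMod p, w x ≤ c * N := by
    refine le_trans ?_ hP4card
    calc ∑ x : ZMod p, w x = ∑ x ∈ P 4, w x := by
          symm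
          apply Finset.sum_subset (Finset.subset_univ _)
          intro x _ hx
          by_contra hne
          exact hx (hwsupp x hne)
      _ ≤ ∑ x ∈ P 4, (1 : ℝ) := Finset.sum_le_sum fun x _ => (hw01 x).2
      _ = ((P 4).card : ℝ) := by rw [Finset.sum_const, nsmul_eq_mul, mul_one]
  have hWt0 : 0 ≤ ∑ x : ZMod p, w x := Finset.sum_nonneg fun x _ => hw0 x
  -- differences in a cell
  have hμ1 : X₀ ^ (-(3 * τ)) ≤ 1 := by
    apply Real.rpow_le_one_of_one_le_of_nonpos hP1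
    linarith
  have hμ0 : 0 < X₀ ^ (-(3 * τ)) := by positivity
  have hdiff : ∀ b ∈ B, ∀ b' ∈ cf B f b, b' - b ∈ P (X₀ ^ (-(3 * τ)) + X₀ ^ (-(3 * τ))) := by
    intro b hb b' hb'
    unfold cf at hb'
    rw [Finset.mem_filter] at hb'
    have h8 := hP.sub_mem (hcell b' hb'.1) (hcell b hb)
    rw [hb'.2] at h8
    have h9 : b' - f b - (b - f b) = b' - b := by ring
    rwa [h9] at h8
  have hdiffQ : ∀ b ∈ B, ∀ b' ∈ B, b' - b ∈ Q 2 := by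
    intro b hb b' hb'
    have h8 := hQ.sub_mem (hBs b' hb') (hBs b hb)
    have h9 : b' - s - (b - s) = b' - b := by ring
    rw [h9] at h8
    have h10 : (1 : ℝ) + 1 = 2 := by norm_num
    rwa [h10] at h8
  -- the inputs
  have hmom := hMOM p χ hχ k V (by omega) h2V
  have hcs := hCSW p χ w B f β (X₀ ^ τ) hw0 (by positivity) hβ hcf
  have hshift : ∀ b ∈ B, ∀ b' ∈ cf B f b, ∀ v ∈ Icc 1 V,
      ∑ x : ZMod p, |w (x + ((2 * v : ℕ) : ZMod p) * (b' - b)) - w x| ≤ 16 * η * ((P 4).card : ℝ) := by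
    intro b hb b' hb' v hv
    apply hwsh
    rw [Finset.mem_Icc] at hv
    have h8 := hP.nat_mul_mem (hdiff b hb b' hb') (2 * v)
    refine hP.mono ?_ h8
    have h9 : (v : ℝ) ≤ X₀ ^ τ := le_trans (by exact_mod_cast hv.2) hVle
    have h10 : X₀ ^ τ * X₀ ^ (-(3 * τ)) = η := by
      rw [hη, ← Real.rpow_add hP0]
      congr 1
      ring
    push_cast
    calc 2 * (v : ℝ) * (X₀ ^ (-(3 * τ)) + X₀ ^ (-(3 * τ))) = 4 * ((v : ℝ) * X₀ ^ (-(3 * τ))) := by ring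
      _ ≤ 4 * (X₀ ^ τ * X₀ ^ (-(3 * τ))) := by
          apply mul_le_mul_of_nonneg_left _ (by norm_num)
          exact mul_le_mul_of_nonneg_right h9 hμ0.le
      _ = 4 * η := by rw [h10]
  have hnu := hNUW p χ w V B f (16 * η * ((P 4).card : ℝ)) hw0
    (mul_nonneg (mul_nonneg (by norm_num) hη0.le) (Nat.cast_nonneg _)) hshift
  obtain ⟨hnu0, hmass⟩ := hMSS p B f w hw0
  have hκ0 : 0 ≤ (29 * X₀ ^ (3 * τ)) ^ d := by positivity
  have hcol := hCOL p B f w ((29 * X₀ ^ (3 * τ)) ^ d) ((P 2 ∩ Q 2).erase 0) (P 4 + B) (P 8 + Q 8) hw01 hκ0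
    (Finset.notMem_erase _ _)
    (by
      intro b hb b' hb' hne
      rw [Finset.mem_erase, Finset.mem_inter]
      refine ⟨sub_ne_zero.2 hne, ?_, ?_⟩
      · exact hP.mono (by linarith) (hdiff b hb b' hb')
      · unfold cf at hb'
        exact hdiffQ b hb b' (Finset.mem_filter.1 hb').1)
    (by
      intro b hb x hx
      exact Finset.add_mem_add (hwsupp x hx) hb)
    (by
      intro y hy y' hy'
      rw [Finset.mem_add] at hy hy'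
      obtain ⟨x, hx, b, hb, rfl⟩ := hy
      obtain ⟨x', hx', b', hb', rfl⟩ := hy'
      have h8 := hP.sub_mem hx hx'
      have h9 := hQ.mono (R' := 8) (by norm_num) (hdiffQ b' hb' b hb)
      have h10 : (4 : ℝ) + 4 = 8 := by norm_num
      rw [h10] at h8
      have h11 : x + b - (x' + b') = (x - x') + (b - b') := by ring
      rw [h11]
      exact Finset.add_mem_add h8 h9)
    (by
      intro y
      refine le_trans ?_ (hκim y)
      have h8 : (B.filter fun b => w (y - b) ≠ 0).image f ⊆ (B.filter fun b => y - b ∈ P 5).image f := by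
        apply Finset.image_subset_image
        intro b hb
        rw [Finset.mem_filter] at hb ⊢
        exact ⟨hb.1, hP.mono (by norm_num) (hwsupp _ hb.2)⟩
      exact_mod_cast Finset.card_le_card h8)
  have hPh0 : ∀ x, 0 ≤ Pool.Agent.PY2.Ph χ V x := fun x => norm_nonneg _
  have hhol := hHOL p (nu B f w) (Pool.Agent.PY2.Ph χ V) k (by omega) hnu0 hPh0
  rw [← hX₀] at hmom
  have hsq : Real.sqrt X₀ = X₀ ^ (1 / 2 : ℝ) := Real.sqrt_eq_rpow X₀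
  rw [hsq] at hmom
  have hmom' := DEN_mom k V X₀ (X₀ ^ (1 / 2 : ℝ)) _ hV0.le (by positivity) hss hVk hmom
  rw [← hK] at hmom'
  obtain ⟨X, hXdef⟩ : ∃ X : ℝ, X = N * n := ⟨_, rfl⟩
  have hX0 : 0 ≤ X := by rw [hXdef]; exact mul_nonneg hN0 hn0
  have hs0 : 0 ≤ X₀ ^ (1 / 2 : ℝ) := by linarith
  have hcol2 : ∑ x : ZMod p, nu B f w x ^ 2 ≤ ((29 * X₀ ^ (3 * τ)) ^ d) ^ 2 *
      (X₀ ^ τ * (N * D + (N * D) ^ 2 / X₀)) :=
    hcol.trans (mul_le_mul_of_nonneg_left hen (by positivity))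
  have htwo := DEN_two X₀ ε τ X N n D _ (X₀ ^ (1 / 2 : ℝ)) _ d hP1 hε hτ hτε hN0 hn0 hD0 hXdef
    hD hn hNn rfl rfl hcol2
  have hU : ∑ x : ZMod p, nu B f w x ≤ c * X := by
    refine hmass.trans ?_
    rw [← hndef, hXdef]
    calc (∑ x : ZMod p, w x) * n ≤ c * N * n := mul_le_mul_of_nonneg_right hWt hn0
      _ = c * (N * n) := by ring
  have hW := DEN_hol k hk1 X₀ ε (2 * (29 : ℝ) ^ (2 * d)) c X V (X₀ ^ (1 / 2 : ℝ)) _ _ _ _ K δ hP1 hX0 hV0.le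
    hs0 (sum_nonneg fun x _ => hnu0 x) (sum_nonneg fun x _ => sq_nonneg _) hK0 hc
    (sum_nonneg fun x _ => mul_nonneg (hnu0 x) (hPh0 x)) hU hmom' htwo hb2 hδk hhol
  rw [hη, ← hndef] at hnu
  rw [← hndef] at hcs
  have hend := DEN_end X₀ τ δ δ₂ c X N n V _ _ _ _ _ hP1 hτ hδ₂τ hδ₂δ hN0 hn0 hXdef hV0 hc hWt0 hWt hP4card
    (sum_nonneg fun x _ => mul_nonneg (hw0 x) (norm_nonneg _))
    (sum_nonneg fun b _ => sum_nonneg fun b' _ => mul_nonneg (inv_nonneg.mpr (Nat.cast_nonneg _)) (norm_nonneg _))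
    hb3 hW hnu hcs
  refine le_trans ?_ hend
  calc ∑ a ∈ P 1, ‖∑ b ∈ B, β b * χ (a + b)‖ = ∑ a ∈ P 1, w a * ‖∑ b ∈ B, β b * χ (a + b)‖ := by
        apply Finset.sum_congr rfl
        intro a ha
        rw [hw1 a ha, one_mul]
    _ ≤ ∑ a : ZMod p, w a * ‖∑ b ∈ B, β b * χ (a + b)‖ := by
        apply Finset.sum_le_sum_of_subset_of_nonneg (Finset.subset_univ _)
        intro a _ _
        exact mul_nonneg (hw0 a) (norm_nonneg _)

end Pool.Agent.WS
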