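import Pool.Agent.helper81.WS.Lib
import Pool.Agent.helper21.PY2.MOM
import Pool.Agent.helper92.PY2.HOL
import Pool.Agent.helper30.WS.SHW
import Pool.Agent.helper90.WS.CSW
import Pool.Agent.helper29.WS.NUW
import Pool.Agent.helper9.WS.MSS
import Pool.Agent.helper71.WS.COL
import Pool.Agent.helper78.WS.CLS
import Pool.Agent.helper87.WS.ENR
import Pool.Agent.helper30.WS.COS
import Pool.Agent.helper81.WS.DEN
import Pool.Agent.helper58.WS.SPA
import Pool.Agent.helper58.WS.KAR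
import Pool.Agent.helper77.WS.CEL
import Pool.Agent.helper72.WS.FIN
import Pool.Agent.helper45.WS.MOW

/-!
# Project ws: assembly
-/

set_option autoImplicit false

namespace Pool.Agent.WS

theorem p_NUW : NUW_stmt := NUW SHW

theorem p_CLS : CLS_stmt := CLS Lib.pkc Pool.Agent.helper85.PG.CVR

theorem p_ENR : ENR_stmt :=
  ENR Lib.pkc Pool.Agent.helper85.PG.INT Lib.rsz Lib.e2

theorem p_DEN : DEN_stmt :=
  DEN Pool.Agent.helper85.PG.REGb Lib.pkc Pool.Agent.PY2.MOM Pool.Agent.PY2.HOL CSW p_NUW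
    MSS COL p_ENR

theorem p_SPA : SPA_stmt := SPA Lib.pkc COS p_ENR

theorem p_KAR : KAR_stmt := KAR Pool.Agent.helper85.PG.TMO

theorem p_CEL : CEL_stmt := CEL Lib.tha p_CLS p_DEN p_SPA p_KAR

theorem p_FIN : FIN_stmt :=
  FIN Lib.fre Pool.Agent.helper85.PG.CVR Lib.pkc p_CEL

theorem p_MOW : MOW_stmt := MOW p_FIN

end Pool.Agent.WS
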