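import Mathlib
import Pool.Agent.helper85.PG.Spec5
import Pool.Agent.helper1.PG.LV2
import Pool.Agent.helper11.PG.GR
import Pool.Agent.helper11.PG.INT
import Pool.Agent.helper13.PG.T1
import Pool.Agent.helper15.PG.LEV
import Pool.Agent.helper25.PG.BOG
import Pool.Agent.helper26.PG.CNT
import Pool.Agent.helper26.PG.PK
import Pool.Agent.helper31.PG.CVR
import Pool.Agent.helper85.PG.MODb
import Pool.Agent.helper34.PG.LSM
import Pool.Agent.helper42.PG.QUO
import Pool.Agent.helper46.PG.GAI
import Pool.Agent.helper53.PG.BST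
import Pool.Agent.helper55.PG.MVV
import Pool.Agent.helper58.PG.GPS
import Pool.Agent.helper66.PG.SUB
import Pool.Agent.helper72.PG.TMO
import Pool.Agent.helper72.PG.V
import Pool.Agent.helper77.PG.T2
import Pool.Agent.helper77.PG.THA
import Pool.Agent.helper87.PG.E2
import Pool.Agent.helper87.PG.PKC
import Pool.Agent.helper90.PG.RZT
import Pool.Agent.helper97.PG.LV1
import Pool.Agent.helper99.PG.RSZ
import Pool.Agent.helper91.PG.CMP
import Pool.Agent.helper85.PG.REGb
import Pool.Agent.helper85.PG.FREb

/-!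
# Project ws: the theorems of project pg that are used, without hypotheses
-/

set_option autoImplicit false

namespace Pool.Agent.WS.Lib

open Pool.Agent.helper85.PG

theorem pkc : PKC_stmt := PKC (PK V1)

theorem lev : LEV_stmt := LEV pkc SUB QUO (CMP pkc (GR V2) T1) (LV1 pkc T1 SUB) (LV2 pkc T2 QUO)

theorem lsm : LSM_stmt := LSM lev

theorem e2 : E2_stmt := E2 lsm CNT

theorem tha : THA_stmt := THA pkc e2

theorem rsz : RSZ_stmt := RSZ pkc INT

theorem fre : FRE_stmt := FREb (MOD RZT) (GAI BOG BST (MVV (PK V1))) GPS pkc CVR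

end Pool.Agent.WS.Lib
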