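import Mathlib
import Pool.Agent.helper85.PG.Spec5
import Pool.Agent.helper95.PY2.Spec

/-!
# Project ws (MP_f6e9a2_nt, Paley graph conjecture): one set of small doubling, the other ARBITRARY, `|B+D|` polynomial

THEOREM (`FIN_stmt`): for all `K`, `ε > 0` there are `δ > 0`, `p₀`: for primes `p > p₀` and `A, B, C, D ⊆ ZMod p` with
`|C+C| ≤ K |C|`, `|D+D| ≤ K |D|`, `|A+C| ≤ p^δ |A|`, `|C| ≥ p^ε`, `p^ε |B+D| ≤ |B| |D|` and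
`p^(1/2+ε) |B+D|² ≤ |C| |D| |B|²`:  `∑_{a ∈ A} |∑_{b ∈ B} β_b χ(a+b)| ≤ p^(-δ) |A| |B|`.
`|B+D| ≤ K |B|`: the hand-in SmallDoubling.  NEW: `B` is arbitrary.  `C = D = A`: `|A+A| ≤ K |A|` and
`|A+B| ≤ p^(-1/4-ε) |A| |B|`; e.g. EVERY subset `B` of `A` with `|B| ≥ p^(1/4+ε)`.

PROOF.  One cell: `A` = `P 1`, `B` an arbitrary subset of a translate of `Q 1` (`P, Q` systems, `N, D` their sizes,
`n = |B|`), `p^(1/2+ε) D ≤ N n²`.  Case K: `n ≥ p^(1/2+ε/16)` (KAR).  Case A: `N² n ≥ p^(1+ε/16)` (THA of project PG).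
Otherwise: cells of `B` = translates of `P(μ)`, `μ = p^(-3τ)` (CLS).  Cells with `≥ p^τ` points (DEN): Cauchy-Schwarz in
each cell, shifts `c → c + 2 v (b'-b)`: only ONE point `x = (c+b)/(b'-b)` appears, with `b'-b ∈ P 2 ∩ Q 2` and
`c + b ∈` a translate of `P 4 + Q 1`.  So its second moment is at most `p^o(1)` times the mixed multiplicative energy of
the intersection and the sum of the two systems (E2), `p^o(1) (N D + (N D)²/p) ≤ p^(-1/2-ε+o(1)) (N n)²`.  Cells with few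
points (SPA): pairs `((c+b)/m, (c+b')/m)`, `m ∈ P`: as a point `c+b` has few representations, the second moment is at most
`p^o(1) n` times the mixed energy of `P` and `P + Q`.

RULES.  Row `X`: file `Pool/Agent/<seat>/WS/X.lean`, `import Pool.Agent.helper81.WS.Spec` (and, if useful,
`Pool.Agent.helper85.PG.Basic`), namespace `Pool.Agent.WS`, `open Finset Module Pointwise`,
`open Pool.Agent.helper85.PG (IsSys rr)`, `theorem X (h1 : Y_stmt) ... : X_stmt` (only the rows named after (from ...), in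
this order; rows of other projects enter as hypotheses with their full name, e.g.
`(hE2 : Pool.Agent.helper85.PG.E2_stmt)`).  Auxiliary lemmas prefixed `X_`.  No double quotes, no native_decide, no
convert / congr!.
-/

set_option autoImplicit false

open Finset

namespace Pool.Agent.WS

open Module Pointwise

open Pool.Agent.helper85.PG (IsSys rr)

/-- the points of `B` in the cell of `b` (`f` = the name of the cell) -/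
def cf {p : ℕ} (B : Finset (ZMod p)) (f : ZMod p → ZMod p) (b : ZMod p) : Finset (ZMod p) :=
  B.filter fun b' => f b' = f b

/-- `∑_c w(c) χ(c+b) conj χ(c+b')` -/
noncomputable def Gw {p : ℕ} [NeZero p] (χ : MulChar (ZMod p) ℂ) (w : ZMod p → ℝ) (b b' : ZMod p) : ℂ :=
  ∑ c : ZMod p, (w c : ℂ) * (χ (c + b) * (starRingEnd ℂ) (χ (c + b')))

/-- the weighted number of representations `x = (c+b)/(b'-b)`, `b ≠ b'` in the same cell, weight `w(c)/|cell|` -/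
noncomputable def nu {p : ℕ} (B : Finset (ZMod p)) (f : ZMod p → ZMod p) (w : ZMod p → ℝ) (x : ZMod p) : ℝ :=
  ∑ b ∈ B, ∑ b' ∈ (cf B f b).erase b, ((cf B f b).card : ℝ)⁻¹ * w (x * (b' - b) - b)

/-! ### The dense part: elementary rows -/

/-- **SHW** (short).  `h = b'-b`, `F(c) = χ(c+b) conj χ(c+b')`.  `∑_c w(c) F(c) = ∑_c w(c+2vh) F(c+2vh)`; replace
`w(c+2vh)` by `w(c)` (`‖F‖ ≤ 1`), sum over `v ∈ Icc 1 V`; with `x = (c+b)/h`: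
`F(c+2vh) = χ(h) conj χ(h) χ(2v+x) conj χ(2v+1+x)`, `‖χ h‖ = 1`; so `‖∑_v F(c+2vh)‖ = Ph χ V x`, and `c = x h - b`. -/
def SHW_stmt : Prop := ∀ (p : ℕ) [Fact p.Prime] (χ : MulChar (ZMod p) ℂ) (w : ZMod p → ℝ) (V : ℕ) (b b' : ZMod p),
  (∀ c, 0 ≤ w c) → b' ≠ b →
  (V : ℝ) * ‖Gw χ w b b'‖ ≤ ∑ x : ZMod p, w (x * (b' - b) - b) * Pool.Agent.PY2.Ph χ V x +
    ∑ v ∈ Icc 1 V, ∑ c : ZMod p, |w (c + ((2 * v : ℕ) : ZMod p) * (b' - b)) - w c|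

/-- **CSW** (medium; compare `Pool.Agent.PY2.CS_stmt` and its proof).  Cells `B_j = {b : f b = j}`, `n_j` points,
`W = ∑ w`.  Cauchy: `(∑_c w(c) |∑_{b ∈ B_j}|)² ≤ W ∑_c w(c) |∑_{b ∈ B_j}|² ≤ W ∑_{b,b' ∈ B_j} ‖Gw b b'‖ =: W U_j`; then
`∑_j √(W U_j) ≤ √(∑_j n_j) √(W ∑_j U_j / n_j)`; the diagonal `‖Gw b b‖ ≤ W` gives `∑_j n_j W / n_j = W #{j} ≤ W |B| / E`;
`∑_j n_j⁻¹ ∑_{b ≠ b' ∈ B_j} = ∑_{b ∈ B} ∑_{b' ∈ (cf b).erase b} (card (cf b))⁻¹`. -/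
def CSW_stmt : Prop := ∀ (p : ℕ) [Fact p.Prime] (χ : MulChar (ZMod p) ℂ) (w : ZMod p → ℝ) (B : Finset (ZMod p))
  (f : ZMod p → ZMod p) (β : ZMod p → ℂ) (E : ℝ), (∀ c, 0 ≤ w c) → 0 < E → (∀ b, ‖β b‖ ≤ 1) →
  (∀ b ∈ B, E ≤ (cf B f b).card) →
  (∑ c : ZMod p, w c * ‖∑ b ∈ B, β b * χ (c + b)‖) ^ 2 ≤
    (B.card : ℝ) * (∑ c : ZMod p, w c) * ((∑ c : ZMod p, w c) * B.card / E +
      ∑ b ∈ B, ∑ b' ∈ (cf B f b).erase b, ((cf B f b).card : ℝ)⁻¹ * ‖Gw χ w b b'‖)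

/-- **NUW** (short; from SHW).  Sum of SHW over the pairs with weights `1/card (cf b)`; exchange the sums for the first
term; the second term of each pair is `≤ V e`, and `∑_b ∑_{b'} 1/card (cf b) ≤ |B|`. -/
def NUW_stmt : Prop := ∀ (p : ℕ) [Fact p.Prime] (χ : MulChar (ZMod p) ℂ) (w : ZMod p → ℝ) (V : ℕ)
  (B : Finset (ZMod p)) (f : ZMod p → ZMod p) (e : ℝ), (∀ c, 0 ≤ w c) → 0 ≤ e →
  (∀ b ∈ B, ∀ b' ∈ cf B f b, ∀ v ∈ Icc 1 V,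
    ∑ c : ZMod p, |w (c + ((2 * v : ℕ) : ZMod p) * (b' - b)) - w c| ≤ e) →
  (V : ℝ) * ∑ b ∈ B, ∑ b' ∈ (cf B f b).erase b, ((cf B f b).card : ℝ)⁻¹ * ‖Gw χ w b b'‖ ≤
    ∑ x : ZMod p, nu B f w x * Pool.Agent.PY2.Ph χ V x + V * e * B.card

/-- **MSS** (short).  `x ↦ x (b'-b) - b` is a bijection of `ZMod p`; `∑_{b'} 1/card (cf b) ≤ 1`. -/
def MSS_stmt : Prop := ∀ (p : ℕ) [Fact p.Prime] (B : Finset (ZMod p)) (f : ZMod p → ZMod p) (w : ZMod p → ℝ),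
  (∀ c, 0 ≤ w c) → (∀ x, 0 ≤ nu B f w x) ∧ ∑ x : ZMod p, nu B f w x ≤ (∑ c : ZMod p, w c) * B.card

/-- **COL** (medium).  With `h = b'-b ∈ H`: `nu x ≤ ∑_{h ∈ H, x h ∈ R} ∑_{b ∈ B, w(x h - b) ≠ 0} 1/card (cf b)` (if
`w(x h - b) ≠ 0`, then `x h = c + b ∈ R` with `c = x h - b`; `w ≤ 1`; `b'` is determined by `b` and `h`), and the inner sum
is at most the number of cells which contain such a `b`, so `≤ κ`.  So `nu x ≤ κ #{h ∈ H : x h ∈ R}`,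
`∑_x nu x ² ≤ κ² ∑_{h,h' ∈ H} #{x : x h ∈ R, x h' ∈ R}`; if `x₀` is one such `x`, then `y = (x-x₀) h' ∈ R2` and
`(h/h') y ∈ R2` for all of them: at most `rr R2 (h/h')`. -/
def COL_stmt : Prop := ∀ (p : ℕ) [Fact p.Prime] (B : Finset (ZMod p)) (f : ZMod p → ZMod p) (w : ZMod p → ℝ)
  (κ : ℝ) (H R R2 : Finset (ZMod p)), (∀ c, 0 ≤ w c ∧ w c ≤ 1) → 0 ≤ κ → (0 : ZMod p) ∉ H →
  (∀ b ∈ B, ∀ b' ∈ cf B f b, b' ≠ b → b' - b ∈ H) → (∀ b ∈ B, ∀ c, w c ≠ 0 → c + b ∈ R) →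
  (∀ y ∈ R, ∀ y' ∈ R, y - y' ∈ R2) →
  (∀ y : ZMod p, ((((B.filter fun b => w (y - b) ≠ 0).image f).card : ℕ) : ℝ) ≤ κ) →
  ∑ x : ZMod p, nu B f w x ^ 2 ≤ κ ^ 2 * ∑ h ∈ H, ∑ h' ∈ H, (rr R2 (h / h') : ℝ)

/-! ### Cells, energies, the sparse part -/

/-- **CLS** (medium; from `PKC_stmt`, `CVR_stmt` of PG).  CVR with `A = B`, `V = P (μ/2)`: `X ⊆ B`, the sets
`x + P(μ/2)` disjoint, every `b ∈ B` in `x + P μ` for some `x ∈ X`; `f b` = such an `x` (choice).  For given `y` the `x = f b`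
with `y - b ∈ P R` have `y - x ∈ P (R + μ)`, so the disjoint sets `x + P(μ/2)` lie in `y + P (R + 2μ)`:
`# P(μ/2) ≤ # P(R + 2μ) ≤ (1 + 4 (R + 2μ)/μ)^d # P(μ/2)`. -/
def CLS_stmt : Prop := ∀ (p : ℕ) [Fact p.Prime] (d : ℕ) (P : ℝ → Finset (ZMod p)), IsSys p d P →
  ∀ (μ : ℝ) (B : Finset (ZMod p)), 0 < μ → ∃ f : ZMod p → ZMod p, (∀ b ∈ B, b - f b ∈ P μ) ∧
    ∀ (R : ℝ) (y : ZMod p), 0 ≤ R →
      ((((B.filter fun b => y - b ∈ P R).image f).card : ℕ) : ℝ) ≤ (9 + 4 * R / μ) ^ d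

/-- **ENR** (medium; from `PKC_stmt`, `INT_stmt`, `RSZ_stmt`, `E2_stmt` of PG).  `Z R = P R ∩ Q R` and `S R = P R + Q R`
are systems of dimension `2d` (INT).  RSZ: `#S 6 #Z 1 ≤ C #P 1 #Q 1`; PKC: `#Z 2 ≤ 5^(2d) #Z 1`, `#S 8 ≤ 5^(2d) #S 6`,
`#Z 1 ≥ 1`.  First part: E2 for `P l = Z 2`, `P' l' = S 8`: `p^(κ/2) (#Z 2 #S 8 + (#Z 2 #S 8)²/p)`, `#Z 2 #S 8 ≤ C' N D`.
Second part: E2 for `P 1` and `S 8`, `#S 8 ≤ C' N D`.  The constants are `≤ p^(κ/2)` for large `p`.  (`P 1 ⊆ S 8`,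
`Z 2 ⊆ S 8` as `0 ∈ Q 8`; E2 for the dimension `2d`, `IsSys.mono_dim`.) -/
def ENR_stmt : Prop := ∀ (d : ℕ) (κ : ℝ), 0 < κ → ∃ p₀ : ℕ, ∀ (p : ℕ) [Fact p.Prime], p₀ ≤ p →
  ∀ P Q : ℝ → Finset (ZMod p), IsSys p d P → IsSys p d Q →
    ∑ h ∈ (P 2 ∩ Q 2).erase 0, ∑ h' ∈ (P 2 ∩ Q 2).erase 0, (rr (P 8 + Q 8) (h / h') : ℝ) ≤
      (p : ℝ) ^ κ * (((P 1).card : ℝ) * (Q 1).card + (((P 1).card : ℝ) * (Q 1).card) ^ 2 / p) ∧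
    ∑ h ∈ (P 1).erase 0, ∑ h' ∈ (P 1).erase 0, (rr (P 8 + Q 8) (h / h') : ℝ) ≤
      (p : ℝ) ^ κ * (((P 1).card : ℝ) * (((P 1).card : ℝ) * (Q 1).card) +
        (((P 1).card : ℝ) * (((P 1).card : ℝ) * (Q 1).card)) ^ 2 / p)

/-- **COS** (medium; compare `COG_stmt` of PG and `Pool/Agent/helper73/PG/COG.lean`; `collisions_eq` of
`Pool/Agent/helper46/PY/D.lean`).  For `m, m' ∈ M`, `ρ = m/m'`, count `(x,b₁,b₂,x',b₁',b₂')` with `x + b_i = ρ (x' + b_i')`: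
`y' = x' + b₁'` and `ρ y' = x + b₁`; the number of possible `y'` is `≤ rr R2 ρ` (differences to a fixed one), `(x',b₁')` in
`≤ κ` ways, `(x,b₁)` in `≤ κ` ways, `b₂'` in `≤ |B|` ways, and `b₂` is determined. -/
def COS_stmt : Prop := ∀ (p : ℕ) [Fact p.Prime] (M : Finset (ZMod p)ˣ) (P B R2 : Finset (ZMod p)) (κ : ℝ), 0 ≤ κ →
  (∀ y : ZMod p, ((B.filter fun b => y - b ∈ P).card : ℝ) ≤ κ) →
  (∀ x ∈ P, ∀ x' ∈ P, ∀ b ∈ B, ∀ b' ∈ B, (x + b) - (x' + b') ∈ R2) →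
  ∑ z : ZMod p × ZMod p, (∑ t ∈ M, (Pool.Agent.helper46.PY.cnt P B (t • z) : ℝ)) ^ 2 ≤
    κ ^ 2 * B.card * ∑ m ∈ M, ∑ m' ∈ M, (rr R2 ((m : ZMod p) / (m' : ZMod p)) : ℝ)

/-! ### The one-cell theorem -/

/-- **DEN** (medium, long, numeric; from `REG_stmt`, `PKC_stmt` of PG, `Pool.Agent.PY2.MOM_stmt`,
`Pool.Agent.PY2.HOL_stmt`, CSW, NUW, MSS, COL, ENR).  `N = #P 1`, `D = #Q 1`, `n = |B|`, `τ₀ = ε/(64 (d+1))` (we may assume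
`ε ≤ 1`).  REG for the system `R ↦ P (4R)` and `η = p^(-2τ)`: `w = 1` on `P 1`, support in `P 4`, `0 ≤ w ≤ 1`,
`∑_c |w(c+h) - w c| ≤ 16 η #P 4 =: e` for `h ∈ P (4η)`.  `V = ⌊p^τ⌋`: `2v(b'-b) ∈ P (4 V p^(-3τ)) ⊆ P (4η)`.
`W = ∑ w ≤ #P 4 ≤ 9^d N`.  COL with `H = (P 2 ∩ Q 2).erase 0`, `R` = the translate by `s` of `P 4 + Q 1` (or the set of all
`c + b`), `R2 = P 8 + Q 8`, `κ = (29 p^(3τ))^d`; ENR with `κ = τ`: `∑ nu² ≤ p^((6d+1)τ) 29^(2d) (N D + (N D)²/p)`,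
`N D ≤ p^(-1/2-ε) (N n)²`, `(N D)²/p ≤ (N n)² N² n² p^(-2-2ε) ≤ p^(-1/2-ε) (N n)²` as `N² n · n ≤ p^(3/2+ε/4)`.  `k` with
`V^k ≥ √p` (`k ≥ 1/τ`, large `p`), MOM: `∑ Ph^(2k) ≤ C_k √p V^(2k)`; HOL: `(∑ nu Ph)^(2k) ≤ C (N n V)^(2k) p^(-ε/2)`.
CSW with `E = p^τ`, NUW: `(∑_c w |..|)² ≤ n W (W n p^(-τ) + V⁻¹ ∑ nu Ph + e n)`. -/
def DEN_stmt : Prop := ∀ (d : ℕ) (ε : ℝ), 0 < ε → ∃ τ₀ : ℝ, 0 < τ₀ ∧ ∀ τ : ℝ, 0 < τ → τ ≤ τ₀ →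
  ∃ (δ : ℝ) (p₀ : ℕ), 0 < δ ∧ ∀ (p : ℕ) [Fact p.Prime], p₀ ≤ p → ∀ P Q : ℝ → Finset (ZMod p), IsSys p d P →
  IsSys p d Q → ∀ (s : ZMod p) (B : Finset (ZMod p)) (f : ZMod p → ZMod p), (∀ b ∈ B, b - s ∈ Q 1) →
    (p : ℝ) ^ (1 / 2 + ε) * (Q 1).card ≤ ((P 1).card : ℝ) * (B.card : ℝ) ^ 2 →
    (B.card : ℝ) ≤ (p : ℝ) ^ (1 / 2 + ε / 8) → ((P 1).card : ℝ) ^ 2 * B.card ≤ (p : ℝ) ^ (1 + ε / 8) →
    (∀ b ∈ B, b - f b ∈ P ((p : ℝ) ^ (-(3 * τ)))) →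
    (∀ y : ZMod p, ((((B.filter fun b => y - b ∈ P 5).image f).card : ℕ) : ℝ) ≤ (29 * (p : ℝ) ^ (3 * τ)) ^ d) →
    (∀ b ∈ B, (p : ℝ) ^ τ ≤ (cf B f b).card) →
    ∀ χ : MulChar (ZMod p) ℂ, χ ≠ 1 → ∀ β : ZMod p → ℂ, (∀ b, ‖β b‖ ≤ 1) →
      ∑ a ∈ P 1, ‖∑ b ∈ B, β b * χ (a + b)‖ ≤ (p : ℝ) ^ (-δ) * ((P 1).card * B.card)

/-- **SPA** (medium, long, numeric; from `PKC_stmt` of PG, COS, ENR; compare `Pool/Agent/helper90/PG/SPS.lean`, the same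
argument with other numbers: `pair_bound` of `Pool/Agent/helper46/PY/D.lean`, `asymp_three` of
`Pool/Agent/helper82/Weil/R.lean`).  `A = P 1`, the `P` of `pair_bound` = `P 2`, `T` = classes of `1, .., ⌊2 p^σ⌋`, `M` = the
units with value in `P (p^(-2σ))`, `|M| ≥ (3 p^(2σ))^(-d) N / 2`, `σ` small.  COS with `κ = p^τ (29 p^(3τ))^d` and
`R2 = P 8 + Q 8` (contains `P 4 + Q 2`), ENR (second part; `M ⊆ (P 1).erase 0`): collisions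
`≤ p^(O(τ)) n (N² D + N⁴ D²/p)`.  `D ≤ p^(-1/2-ε) N n²` and `N n ≥ p^(1/2+ε)` (as `n ≤ D`) give
`n N² D ≤ N³ n³ p^(-1/2-ε) ≤ p^(-1-2ε) (N n)⁴`; `D² ≤ N² n⁴ p^(-1-2ε) ≤ p^(-15ε/8) n³` gives
`n N⁴ D²/p ≤ p^(-1-15ε/8) (N n)⁴`. -/
def SPA_stmt : Prop := ∀ (d : ℕ) (ε : ℝ), 0 < ε → ∃ τ₀ : ℝ, 0 < τ₀ ∧ ∀ τ : ℝ, 0 < τ → τ ≤ τ₀ →
  ∃ (δ : ℝ) (p₀ : ℕ), 0 < δ ∧ ∀ (p : ℕ) [Fact p.Prime], p₀ ≤ p → ∀ P Q : ℝ → Finset (ZMod p), IsSys p d P →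
  IsSys p d Q → ∀ (s : ZMod p) (B : Finset (ZMod p)), (∀ b ∈ B, b - s ∈ Q 1) →
    (p : ℝ) ^ ε ≤ (P 1).card → (p : ℝ) ^ (1 / 2 + ε) * (Q 1).card ≤ ((P 1).card : ℝ) * (B.card : ℝ) ^ 2 →
    ((P 1).card : ℝ) ^ 2 * B.card ≤ (p : ℝ) ^ (1 + ε / 8) →
    (∀ y : ZMod p, ((B.filter fun b => y - b ∈ P 2).card : ℝ) ≤ (p : ℝ) ^ τ * (29 * (p : ℝ) ^ (3 * τ)) ^ d) →
    ∀ χ : MulChar (ZMod p) ℂ, χ ≠ 1 → ∀ β : ZMod p → ℂ, (∀ b, ‖β b‖ ≤ 1) →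
      ∑ a ∈ P 1, ‖∑ b ∈ B, β b * χ (a + b)‖ ≤ (p : ℝ) ^ (-δ) * ((P 1).card * B.card)

/-- **KAR** (short, medium; from `TMO_stmt` of PG).  Choose unimodular `α_a` with `‖∑_b ..‖ = α_a ∑_b ..`; exchange the
sums; Hoelder over `b ∈ B ⊆ ZMod p` with the exponent `2k`, `k ≥ 1/ε`:
`(∑_{b ∈ B} ‖∑_a α_a χ(a+b)‖)^(2k) ≤ |B|^(2k-1) (k^(2k) |A|^k p + |A|^(2k) 2k √p)`, `|A|^k ≥ √p`, `√p ≤ p^(-ε) |B|`. -/
def KAR_stmt : Prop := ∀ ε : ℝ, 0 < ε → ∃ (δ : ℝ) (p₀ : ℕ), 0 < δ ∧ ∀ (p : ℕ) [Fact p.Prime], p₀ ≤ p →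
  ∀ A B : Finset (ZMod p), (p : ℝ) ^ ε ≤ A.card → (p : ℝ) ^ (1 / 2 + ε) ≤ B.card →
    ∀ χ : MulChar (ZMod p) ℂ, χ ≠ 1 → ∀ β : ZMod p → ℂ, (∀ b, ‖β b‖ ≤ 1) →
      ∑ a ∈ A, ‖∑ b ∈ B, β b * χ (a + b)‖ ≤ (p : ℝ) ^ (-δ) * (A.card * B.card)

/-- **CEL** (medium; from `THA_stmt` of PG, CLS, DEN, SPA, KAR; the one-cell theorem).
`n ≥ p^(1/2+ε/16)`: KAR for `ε/16`.  `N² n ≥ p^(1+ε/16)`: THA for `ε/16`, `A = P 1`, `a₀ = 0` (`E(B) ≤ n³`).  Otherwise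
`τ = min` of the `τ₀` of DEN and SPA, both for `ε/2` (`(ε/2)/8 = ε/16`), CLS with `μ = p^(-3τ)` (`9 + 20/μ ≤ 29 p^(3τ)`).
`B_d` = the points in cells with at least `p^τ` points, `B_s` = the others (the cells of `B_d` are cells of `B`).  If
`|B_d| ≥ p^(-ε/8) n`: DEN for `B_d` (`N |B_d|² ≥ p^(-ε/4) N n²`); otherwise the trivial bound `N |B_d|`.  The same for `B_s`
and SPA: for every `y` the `b ∈ B_s` with `y - b ∈ P 2` lie in at most `(9 + 8 p^(3τ))^d ≤ (29 p^(3τ))^d` cells with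
`< p^τ` points each. -/
def CEL_stmt : Prop := ∀ (d : ℕ) (ε : ℝ), 0 < ε → ∃ (δ : ℝ) (p₀ : ℕ), 0 < δ ∧
  ∀ (p : ℕ) [Fact p.Prime], p₀ ≤ p → ∀ P Q : ℝ → Finset (ZMod p), IsSys p d P → IsSys p d Q →
  ∀ (s : ZMod p) (B : Finset (ZMod p)), (∀ b ∈ B, b - s ∈ Q 1) → (p : ℝ) ^ ε ≤ (P 1).card →
    (p : ℝ) ^ ε ≤ B.card → (p : ℝ) ^ (1 / 2 + ε) * (Q 1).card ≤ ((P 1).card : ℝ) * (B.card : ℝ) ^ 2 →
    ∀ χ : MulChar (ZMod p) ℂ, χ ≠ 1 → ∀ β : ZMod p → ℂ, (∀ b, ‖β b‖ ≤ 1) →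
      ∑ a ∈ P 1, ‖∑ b ∈ B, β b * χ (a + b)‖ ≤ (p : ℝ) ^ (-δ) * ((P 1).card * B.card)

/-! ### The theorem -/

/-- **FIN** (medium; from `FRE_stmt`, `CVR_stmt`, `PKC_stmt` of PG, CEL; compare `Pool/Agent/helper51/PG/FND.lean`).  FRE for
`C` (`P, F`) and for `D` (`Q, F'`), constant `C₀`, a common dimension `d` (`IsSys.mono_dim`).  CVR for `A`, `V = C`: `X ⊆ A`,
`#X |C| ≤ |A+C| ≤ p^δ |A|`, `A ⊆ X + C - C ⊆ Y + P 2`, `#Y ≤ C₀² p^δ |A|/|C|`; CVR for `B`, `V = D`: `B ⊆ Z + Q 2`,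
`#Z ≤ C₀² |B+D|/|D|`.  Choose `z b ∈ Z` with `b - z b ∈ Q 2`, `B_z = {b : z b = z}`.  If `|B_z| ≥ p^(-δ₁) |B||D|/|B+D|`: CEL
(for `ε/2`, systems `R ↦ P (2R)`, `R ↦ Q (2R)`) for `y + B_z` for every `y ∈ Y`: `#P 2 ≥ |C|/C₀`, `#Q 2 ≤ 5^d C₀ |D|`,
`|B_z|² #P 2 ≥ p^(-2δ₁) |B|²|D|²|C|/(C₀ |B+D|²) ≥ p^(1/2+ε-2δ₁) |D|/C₀`.  The other `z`: together at most
`#Z p^(-δ₁) |B||D|/|B+D| ≤ C₀² p^(-δ₁) |B|` points of `B`, trivial bound.  Total (`#P 2 ≤ 5^d C₀ |C|`):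
`∑_{y,z} ∑_{a' ∈ P 2} ‖∑_{b ∈ B_z}‖ ≤ #Y #P 2 (p^(-δ₂) + C₀² p^(-δ₁)) |B| ≤ C p^δ |A| (..) |B|`, `δ < min(δ₁,δ₂)/4`. -/
def FIN_stmt : Prop := ∀ (K ε : ℝ), 0 < ε → ∃ (δ : ℝ) (p₀ : ℕ), 0 < δ ∧
  ∀ (p : ℕ) [Fact p.Prime], p₀ < p → ∀ A B C D : Finset (ZMod p), C.Nonempty → D.Nonempty →
    ((C + C).card : ℝ) ≤ K * C.card → ((D + D).card : ℝ) ≤ K * D.card →
    ((A + C).card : ℝ) ≤ (p : ℝ) ^ δ * A.card → (p : ℝ) ^ ε ≤ C.card →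
    (p : ℝ) ^ ε * (B + D).card ≤ B.card * D.card →
    (p : ℝ) ^ (1 / 2 + ε) * ((B + D).card : ℝ) ^ 2 ≤ C.card * D.card * (B.card : ℝ) ^ 2 →
    ∀ χ : MulChar (ZMod p) ℂ, χ ≠ 1 → ∀ β : ZMod p → ℂ, (∀ b, ‖β b‖ ≤ 1) →
      ∑ a ∈ A, ‖∑ b ∈ B, β b * χ (a + b)‖ ≤ (p : ℝ) ^ (-δ) * (A.card * B.card)

/-- **MOW** (short, medium; from FIN; compare `Pool/Agent/helper47/EIF/MOX.lean`).  With `g x = (a x + b)/(c x + d)`: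
`g x - g (-y) = (a d - b c) (x + y)/((c x + d) (-c y + d))`; the factors `χ(ad - bc)`, `conj χ(cx + d)` can be dropped,
`conj χ(-cy + d)` goes into the weights. -/
def MOW_stmt : Prop := ∀ (K ε : ℝ), 0 < ε → ∃ (δ : ℝ) (p₀ : ℕ), 0 < δ ∧
  ∀ (p : ℕ) [Fact p.Prime], p₀ < p → ∀ (A B C D : Finset (ZMod p)) (a b c d : ZMod p), C.Nonempty → D.Nonempty →
    a * d - b * c ≠ 0 → (∀ x ∈ A, c * x + d ≠ 0) → (∀ y ∈ B, c * (-y) + d ≠ 0) →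
    ((C + C).card : ℝ) ≤ K * C.card → ((D + D).card : ℝ) ≤ K * D.card →
    ((A + C).card : ℝ) ≤ (p : ℝ) ^ δ * A.card → (p : ℝ) ^ ε ≤ C.card →
    (p : ℝ) ^ ε * (B + D).card ≤ B.card * D.card →
    (p : ℝ) ^ (1 / 2 + ε) * ((B + D).card : ℝ) ^ 2 ≤ C.card * D.card * (B.card : ℝ) ^ 2 →
    ∀ χ : MulChar (ZMod p) ℂ, χ ≠ 1 → ∀ β : ZMod p → ℂ, (∀ y, ‖β y‖ ≤ 1) →
      ∑ x ∈ A, ‖∑ y ∈ B, β y * χ ((a * x + b) / (c * x + d) - (a * (-y) + b) / (c * (-y) + d))‖ ≤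
        (p : ℝ) ^ (-δ) * (A.card * B.card)

end Pool.Agent.WS
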